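import Pool.Agent.E8helper59.PN.Stm

/-! Project PN, piece `S_DC`. -/

set_option autoImplicit false
open Set
open scoped Pointwise Topology

namespace Pool.Agent.E8helper39.PN

open Pool.Agent.E8helper59.PN

theorem zero_nhds {n : ℕ} {G : Set (Fin n → ℝ)} (hG : Body G) (hs : ∀ x ∈ G, -x ∈ G) :
    G ∈ 𝓝 (0 : Fin n → ℝ) := by
  obtain ⟨-, hc, x, hx⟩ := hG
  rw [← mem_interior_iff_mem_nhds]
  have hneg : -x ∈ interior G := by
    have h1 : G = -G := by
      ext y
      rw [Set.mem_neg]
      exact ⟨fun h => hs y h, fun h => by simpa using hs _ h⟩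
    have h2 : interior G = -interior G := by
      have h3 : interior (-G) = -interior G := by
        have := (Homeomorph.neg (Fin n → ℝ)).preimage_interior G
        simpa using this.symm
      rw [← h3, ← h1]
    rw [h2, Set.mem_neg, neg_neg]
    exact hx
  have hci := hc.interior
  have := hci hx hneg (by norm_num : (0 : ℝ) ≤ 1 / 2) (by norm_num : (0 : ℝ) ≤ 1 / 2) (by norm_num)
  simpa using this

theorem compact_cube (n : ℕ) : IsCompact (Cube n) := by
  have : Cube n = Set.Icc (0 : Fin n → ℝ) 1 := by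
    ext x
    simp only [Cube, Set.mem_setOf_eq, Set.mem_Icc, Pi.le_def, Pi.zero_apply, Pi.one_apply]
    exact ⟨fun h => ⟨fun i => (h i).1, fun i => (h i).2⟩, fun h i => ⟨h.1 i, h.2 i⟩⟩
  rw [this]
  exact isCompact_Icc

theorem t_DC : S_DC := by
  intro n G hn hG hs
  have h0 := zero_nhds hG hs
  have hcont : Continuous (gauge G) := continuous_gauge hG.2.1 h0
  have hbdd : BddAbove ((fun p : (Fin n → ℝ) × (Fin n → ℝ) => gauge G (p.1 - p.2)) ''
      (Cube n ×ˢ Cube n)) := by
    refine (((compact_cube n).prod (compact_cube n)).image ?_).bddAbove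
    exact hcont.comp (continuous_fst.sub continuous_snd)
  have hvx : ∀ u : Fin n → Bool, vx u ∈ Cube n := by
    intro u i
    unfold vx
    split_ifs <;> simp
  have hle : ∀ u w : Fin n → Bool, gauge G (vx u - vx w) ≤ Dm G (Cube n) := by
    intro u w
    exact le_csSup hbdd ⟨(vx u, vx w), ⟨hvx u, hvx w⟩, rfl⟩
  refine ⟨?_, hle⟩
  refine lt_of_lt_of_le ?_ (hle (fun _ => true) (fun _ => false))
  rw [gauge_pos (absorbent_nhds_zero h0)
    (NormedSpace.isVonNBounded_of_isBounded _ hG.1.isBounded)]
  intro h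
  have := congrFun h ⟨0, hn⟩
  simp [vx] at this

end Pool.Agent.E8helper39.PN
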